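import Mathlib

open Set Cardinal

universe u

namespace Pool.Agent.Results.MP_053b7f_lc.WinsIffCountable

/-- One stage of a play: a set `P`, which splits the current set `S` into the two parts `S ∩ P`
and `S \ P`, together with the choice of a part (`true` for `S ∩ P`, `false` for `S \ P`). -/
abbrev Stage (E : Type u) := Set E × Bool

/-- The set `S_n` of a play `p`, where `p n` is the `n`-th stage. -/
def S {E : Type u} (p : ℕ → Stage E) : ℕ → Set E
  | 0 => univ
  | n + 1 => if (p n).2 = true then S p n ∩ (p n).1 else S p n \ (p n).1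

/-- The list of the stages `0, …, n - 1` of a play. -/
def history {E : Type u} (p : ℕ → Stage E) (n : ℕ) : List (Stage E) := (List.range n).map p

/-- A strategy of player A. At an even stage `n` player A splits `S_n` (and B chooses the part
`S_{n+1}`); at an odd stage player B splits `S_n` and A chooses the part `S_{n+1}`. The strategy
gives the split from the list of all earlier stages, and the choice from the list of all earlier
stages together with the present split of B. -/
structure Strategy (E : Type u) where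
  /-- how to split at an even stage -/
  split : List (Stage E) → Set E
  /-- which part to choose at an odd stage -/
  pick : List (Stage E) → Set E → Bool

/-- The play `p` follows the strategy `σ` of A. -/
def Follows {E : Type u} (σ : Strategy E) (p : ℕ → Stage E) : Prop :=
  ∀ k : ℕ, (p (2 * k)).1 = σ.split (history p (2 * k)) ∧
    (p (2 * k + 1)).2 = σ.pick (history p (2 * k + 1)) (p (2 * k + 1)).1

/-- Player A has a winning strategy in `G(E)`. -/
def HasWinningStrategy (E : Type u) : Prop :=
  ∃ σ : Strategy E, ∀ p : ℕ → Stage E, Follows σ p → ⋂ n, S p n = ∅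

variable {E : Type u}

theorem mem_S_iff (p : ℕ → Stage E) (x : E) (n : ℕ) :
    x ∈ S p n ↔ ∀ m < n, (x ∈ (p m).1 ↔ (p m).2 = true) := by
  induction n with
  | zero => simp [S]
  | succ n ih =>
    rw [S]
    constructor
    · intro h m hm
      by_cases hb : (p n).2 = true
      · rw [if_pos hb] at h
        rcases Nat.lt_succ_iff_lt_or_eq.1 hm with h1 | rfl
        · exact ih.1 h.1 m h1
        · exact ⟨fun _ => hb, fun _ => h.2⟩
      · rw [if_neg hb] at h
        rcases Nat.lt_succ_iff_lt_or_eq.1 hm with h1 | rfl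
        · exact ih.1 h.1 m h1
        · exact ⟨fun h2 => absurd h2 h.2, fun h2 => absurd h2 hb⟩
    · intro h
      have h1 : x ∈ S p n := ih.2 fun m hm => h m (hm.trans (Nat.lt_succ_self n))
      have h2 := h n (Nat.lt_succ_self n)
      by_cases hb : (p n).2 = true
      · rw [if_pos hb]
        exact ⟨h1, h2.2 hb⟩
      · rw [if_neg hb]
        exact ⟨h1, fun h3 => hb (h2.1 h3)⟩

theorem mem_iInter_S_iff (p : ℕ → Stage E) (x : E) :
    x ∈ ⋂ n, S p n ↔ ∀ m, (x ∈ (p m).1 ↔ (p m).2 = true) := by
  rw [mem_iInter]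
  constructor
  · intro h m
    exact (mem_S_iff p x (m + 1)).1 (h (m + 1)) m (Nat.lt_succ_self m)
  · intro h n
    exact (mem_S_iff p x n).2 fun m _ => h m

theorem history_length (p : ℕ → Stage E) (n : ℕ) : (history p n).length = n := by
  simp [history]

theorem history_succ (p : ℕ → Stage E) (n : ℕ) : history p (n + 1) = history p n ++ [p n] := by
  simp [history, List.range_succ]

/-- If `E` is countable, A wins. -/
theorem wins_of_countable [Countable E] : HasWinningStrategy E := by
  classical
  rcases isEmpty_or_nonempty E with hE | hE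
  · refine ⟨⟨fun _ => univ, fun _ _ => true⟩, fun p _ => ?_⟩
    rw [eq_empty_iff_forall_notMem]
    exact fun x => hE.elim x
  · obtain ⟨e, he⟩ := exists_surjective_nat E
    refine ⟨⟨fun _ => univ, fun h P => decide (e (h.length / 2) ∉ P)⟩, fun p hp => ?_⟩
    rw [eq_empty_iff_forall_notMem]
    intro x hx
    obtain ⟨k, rfl⟩ := he x
    have h1 := (mem_iInter_S_iff p (e k)).1 hx (2 * k + 1)
    have h2 := (hp k).2
    have h3 : (history p (2 * k + 1)).length / 2 = k := by
      rw [history_length]
      omega
    simp only [h3] at h2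
    rw [h2, decide_eq_true_iff] at h1
    by_cases h4 : e k ∈ (p (2 * k + 1)).1
    · exact (h1.1 h4) h4
    · exact h4 (h1.2 h4)

/-- The current set after a history. -/
def cur : List (Stage E) → Set E := fun h =>
  {x | ∀ s ∈ h, (x ∈ s.1 ↔ s.2 = true)}

theorem cur_history (p : ℕ → Stage E) (n : ℕ) : cur (history p n) = S p n := by
  ext x
  rw [mem_S_iff]
  simp [cur, history]

/-- Histories with restricted moves of `B`: in each round `B` chooses a part and an index. -/
def hist (σ : Strategy E) (C : ℕ → Set E) : List (Bool × ℕ) → List (Stage E)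
  | [] => []
  | (b, n) :: l =>
    (hist σ C l ++ [(σ.split (hist σ C l), b)]) ++
      [(C n, σ.pick (hist σ C l ++ [(σ.split (hist σ C l), b)]) (C n))]

/-- the history just before a split of `B` -/
def hist' (σ : Strategy E) (C : ℕ → Set E) (l : List (Bool × ℕ)) (b : Bool) : List (Stage E) :=
  hist σ C l ++ [(σ.split (hist σ C l), b)]

/-- the split number `n` of `B` is proper and keeps `x` -/
def Keeps (σ : Strategy E) (C : ℕ → Set E) (l : List (Bool × ℕ)) (b : Bool) (n : ℕ) (x : E) :
    Prop :=
  (cur (hist' σ C l b) ∩ C n).Nonempty ∧ (cur (hist' σ C l b) \ C n).Nonempty ∧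
    (x ∈ C n ↔ σ.pick (hist' σ C l b) (C n) = true)

/-- A countable family of sets separating the points of an uncountable subset. -/
theorem exists_family [Uncountable E] : ∃ (C : ℕ → Set E) (E' : Set E), ¬ E'.Countable ∧
    ∀ x ∈ E', ∀ y ∈ E', (∀ n, (x ∈ C n ↔ y ∈ C n)) → x = y := by
  have h1 : #(Quotient.out (ℵ₁ : Cardinal.{u})) ≤ #E := by
    rw [Cardinal.mk_out, aleph_one_le_iff]
    exact aleph0_lt_mk
  obtain ⟨f⟩ := h1
  have h2 : lift.{0, u} #(Quotient.out (ℵ₁ : Cardinal.{u})) ≤ lift.{u, 0} #(Set ℕ) := by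
    rw [Cardinal.mk_out, mk_set_nat, lift_continuum, lift_aleph, Ordinal.lift_one]
    exact aleph_one_le_continuum
  obtain ⟨g⟩ := Cardinal.lift_mk_le'.1 h2
  refine ⟨fun n => {x | ∃ a, f a = x ∧ n ∈ g a}, range f, ?_, ?_⟩
  · intro hc
    have h3 : Uncountable (Quotient.out (ℵ₁ : Cardinal.{u})) := by
      rw [← aleph0_lt_mk_iff, Cardinal.mk_out]
      exact aleph0_lt_aleph_one
    have h4 : Countable (Quotient.out (ℵ₁ : Cardinal.{u})) := by
      have : Countable (range f) := hc.to_subtype
      exact (Equiv.ofInjective f f.injective).countable_iff.2 this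
    exact not_countable_iff.2 h3 h4
  · rintro _ ⟨a, rfl⟩ _ ⟨b, rfl⟩ h
    congr 1
    apply g.injective
    ext n
    have h5 : ∀ c, (f c ∈ {x | ∃ a, f a = x ∧ n ∈ g a} ↔ n ∈ g c) := by
      intro c
      constructor
      · rintro ⟨a', ha', hn⟩
        rwa [← f.injective ha']
      · intro hn
        exact ⟨c, rfl, hn⟩
    rw [← h5 a, ← h5 b]
    exact h n

/-- For uncountable `E` every strategy of A is defeated, even by a play in which B always splits
into two nonempty parts. -/
theorem defeat [Uncountable E] (σ : Strategy E) : ∃ p : ℕ → Stage E, Follows σ p ∧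
    (∀ k : ℕ, (S p (2 * k + 1) ∩ (p (2 * k + 1)).1).Nonempty ∧
      (S p (2 * k + 1) \ (p (2 * k + 1)).1).Nonempty) ∧ (⋂ n, S p n).Nonempty := by
  classical
  obtain ⟨C, E', hE', hC⟩ := exists_family (E := E)
  -- the points that cannot be kept at some history
  let L : List (Bool × ℕ) × Bool → Set E := fun q =>
    {x | x ∈ E' ∧ x ∈ cur (hist' σ C q.1 q.2) ∧ ∀ n, ¬ Keeps σ C q.1 q.2 n x}
  have hL : ∀ q, (L q).Countable := by
    intro q
    apply Set.Subsingleton.countable
    rintro x ⟨hx, hxc, hx'⟩ y ⟨hy, hyc, hy'⟩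
    apply hC x hx y hy
    intro n
    by_contra hn
    have h1 := hx' n
    have h2 := hy' n
    unfold Keeps at h1 h2
    by_cases hxn : x ∈ C n
    · have hyn : y ∉ C n := fun h => hn ⟨fun _ => h, fun _ => hxn⟩
      have e1 : (cur (hist' σ C q.1 q.2) ∩ C n).Nonempty := ⟨x, hxc, hxn⟩
      have e2 : (cur (hist' σ C q.1 q.2) \ C n).Nonempty := ⟨y, hyc, hyn⟩
      by_cases hp : σ.pick (hist' σ C q.1 q.2) (C n) = true
      · exact h1 ⟨e1, e2, ⟨fun _ => hp, fun _ => hxn⟩⟩
      · exact h2 ⟨e1, e2, ⟨fun h => absurd h hyn, fun h => absurd h hp⟩⟩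
    · have hyn : y ∈ C n := by
        by_contra h
        exact hn ⟨fun h' => absurd h' hxn, fun h' => absurd h' h⟩
      have e1 : (cur (hist' σ C q.1 q.2) ∩ C n).Nonempty := ⟨y, hyc, hyn⟩
      have e2 : (cur (hist' σ C q.1 q.2) \ C n).Nonempty := ⟨x, hxc, hxn⟩
      by_cases hp : σ.pick (hist' σ C q.1 q.2) (C n) = true
      · exact h2 ⟨e1, e2, ⟨fun _ => hp, fun _ => hyn⟩⟩
      · exact h1 ⟨e1, e2, ⟨fun h => absurd h hxn, fun h => absurd h hp⟩⟩
  obtain ⟨x, hxE, hxL⟩ : ∃ x ∈ E', x ∉ ⋃ q, L q := by
    by_contra hcon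
    push Not at hcon
    exact hE' ((countable_iUnion hL).mono hcon)
  rw [mem_iUnion] at hxL
  push Not at hxL
  -- the choice of the part and of the split of `B`
  let b : List (Bool × ℕ) → Bool := fun l => decide (x ∈ σ.split (hist σ C l))
  let m : List (Bool × ℕ) → ℕ := fun l =>
    if h : ∃ n, Keeps σ C l (b l) n x then h.choose else 0
  have hm : ∀ l, x ∈ cur (hist σ C l) → Keeps σ C l (b l) (m l) x := by
    intro l hl
    have h1 : x ∈ cur (hist' σ C l (b l)) := by
      intro s hs
      rw [hist', List.mem_append, List.mem_singleton] at hs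
      rcases hs with hs | rfl
      · exact hl s hs
      · simp only [b, decide_eq_true_iff]
    have h2 : ∃ n, Keeps σ C l (b l) n x := by
      by_contra hcon
      push Not at hcon
      exact hxL (l, b l) ⟨hxE, h1, hcon⟩
    simp only [m, dif_pos h2]
    exact h2.choose_spec
  let c : ℕ → List (Bool × ℕ) := fun k => Nat.rec [] (fun _ l => (b l, m l) :: l) k
  have hc0 : c 0 = [] := rfl
  have hcs : ∀ k, c (k + 1) = (b (c k), m (c k)) :: c k := fun k => rfl
  have hcur : ∀ k, x ∈ cur (hist σ C (c k)) := by
    intro k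
    induction k with
    | zero =>
      intro s hs
      simp [hc0, hist] at hs
    | succ k ih =>
      have h1 := hm (c k) ih
      intro s hs
      rw [hcs, hist, List.mem_append, List.mem_append, List.mem_singleton,
        List.mem_singleton] at hs
      rcases hs with (hs | rfl) | rfl
      · exact ih s hs
      · simp only [b, decide_eq_true_iff]
      · exact h1.2.2
  -- the play
  let p : ℕ → Stage E := fun n =>
    if n % 2 = 0 then (σ.split (hist σ C (c (n / 2))), b (c (n / 2)))
    else (C (m (c (n / 2))), σ.pick (hist' σ C (c (n / 2)) (b (c (n / 2)))) (C (m (c (n / 2)))))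
  have hp0 : ∀ k, p (2 * k) = (σ.split (hist σ C (c k)), b (c k)) := by
    intro k
    have e1 : 2 * k % 2 = 0 := by omega
    have e2 : 2 * k / 2 = k := by omega
    simp only [p, e1, e2, if_true]
  have hp1 : ∀ k, p (2 * k + 1) =
      (C (m (c k)), σ.pick (hist' σ C (c k) (b (c k))) (C (m (c k)))) := by
    intro k
    have e1 : (2 * k + 1) % 2 = 1 := by omega
    have e2 : (2 * k + 1) / 2 = k := by omega
    simp only [p, e1, e2, one_ne_zero, if_false]
  have hh : ∀ k, history p (2 * k) = hist σ C (c k) := by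
    intro k
    induction k with
    | zero => simp [history, hc0, hist]
    | succ k ih =>
      have e1 : 2 * (k + 1) = 2 * k + 1 + 1 := by ring
      rw [e1, history_succ, history_succ, ih, hp0, hp1, hcs, hist]
      rfl
  have hh1 : ∀ k, history p (2 * k + 1) = hist' σ C (c k) (b (c k)) := by
    intro k
    rw [history_succ, hh, hp0]
    rfl
  refine ⟨p, ?_, ?_, ⟨x, ?_⟩⟩
  · intro k
    rw [hh, hh1, hp0, hp1]
    exact ⟨rfl, rfl⟩
  · intro k
    rw [← cur_history, hh1, hp1]
    have h1 := hm (c k) (hcur k)
    exact ⟨h1.1, h1.2.1⟩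
  · rw [mem_iInter_S_iff]
    intro n
    rcases Nat.even_or_odd' n with ⟨k, rfl | rfl⟩
    · rw [hp0]
      simp only [b, decide_eq_true_iff]
    · rw [hp1]
      exact (hm (c k) (hcur k)).2.2

/-- **Main theorem.** Player A has a winning strategy in `G(E)` if and only if `E` is countable.
Moreover, for uncountable `E`, against every strategy of A there is a play with nonempty
intersection in which all splits of B have two nonempty parts. -/
theorem result :
    (∀ E : Type u, HasWinningStrategy E ↔ Countable E) ∧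
    (∀ E : Type u, Uncountable E → ∀ σ : Strategy E, ∃ p : ℕ → Stage E, Follows σ p ∧
      (∀ k : ℕ, (S p (2 * k + 1) ∩ (p (2 * k + 1)).1).Nonempty ∧
        (S p (2 * k + 1) \ (p (2 * k + 1)).1).Nonempty) ∧ (⋂ n, S p n).Nonempty) := by
  refine ⟨fun E => ⟨fun h => ?_, fun h => wins_of_countable⟩, fun E h σ => defeat σ⟩
  by_contra hE
  rw [not_countable_iff] at hE
  obtain ⟨σ, hσ⟩ := h
  obtain ⟨p, hp, -, hne⟩ := defeat σ
  rw [hσ p hp] at hne
  exact not_nonempty_empty hne

end Pool.Agent.Results.MP_053b7f_lc.WinsIffCountable
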